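import Pool.Agent.MT100.Main
import Pool.Agent.MT100.StmtsP
import Pool.Agent.Helper69_MT.Pep
import Pool.Agent.Helper98_MT.Cop
import Pool.Agent.Helper26_MT100.Dep
import Pool.Agent.Helper26_MT100.Gdn
import Pool.Agent.Helper65_MT100.Vap
import Pool.Agent.Helper83_MT.Ens
import Pool.Agent.Helper83_MT.Sys
import Pool.Agent.Helper27_MT.Trp
import Pool.Agent.Helper76_MT100.Fin
import Pool.Agent.Helper39_MT.Gal
import Pool.Agent.Helper51_MT.Wrap
import Pool.Agent.Helper58_MT.Stm
import Pool.Agent.Helper75_MTB.Ana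
import Pool.Agent.Helper94_MT100.Cyc
import Pool.Agent.Helper94_MT100.Hyp
import Pool.Agent.Helper91_MT.Ltl
import Pool.Agent.Helper90_MT100.Hg0
import Pool.Agent.Helper47_MT.Eva
import Pool.Agent.Helper47_MT.Hgr
import Pool.Agent.Helper19_MT100.Hgt
import Pool.Agent.Helper13_MT.Pai
import Pool.Agent.Helper67_MT.Sym
import Pool.Agent.Helper33_MTP.Frp
import Pool.Agent.Helper34_MT.Conif
import Pool.Agent.Helper46_MT.Final
import Pool.Agent.Helper78_M100.Lad5
import Pool.Agent.Helper18_MT.Nva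

/-! Assembly of MT100 with a polynomial parameter. -/

set_option autoImplicit false

namespace Pool.Agent.MT100.H97

open Matrix Polynomial Pool.Agent.MT100 Pool.Agent.Helper78_MT

universe u v

theorem eva' : EvaStmt := H47.eva
theorem hyp' : HypStmt := H94.hyp
theorem hgt' : HgtStmt := H19.hgt
theorem hgr' : HgrStmt := H47R.hgr
theorem pai' : PaiStmt := Pool.Agent.Helper13_MT.pai hyp'
theorem ana' : AnaStmt := Pool.Agent.MT100B.H75.ana100 hyp' hgr' pai'
theorem con' : ConStmt := H34.con ana'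
theorem cyc' : CycStmt := H94.cyc ana' H91.ltl H90.hg0
theorem cop' : CopStmt := H98.cop con' cyc'
theorem gfn' : GfnStmt :=
  H76.gfn eva' Pool.Agent.Helper58_MT.recStmt Pool.Agent.Helper39_MT.gal
    Pool.Agent.Helper51_MT.sieStmt Pool.Agent.Helper58_MT.zeaStmt Pool.Agent.Helper58_MT.zebStmt
theorem gdn' : GdnStmt := Pool.Agent.Helper26_MT100.gdn eva' gfn' H83.sys
theorem trp' : TrpStmt := H27.trp hyp' hgt' pai' H27.trg H83.ens
theorem vap' : VapStmt := Pool.Agent.Helper65MT100.vap H83.ens hgt'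

theorem frp' (D : Dat) (φ : ℚ[X]) (hφ : Adm D φ) (hpos : ∃ x : ℝ, 0 < x ∧ pv φ x ≤ D.lam)
    (ι : Type) [Fintype ι] [DecidableEq ι] (κ : ι → ℕ) (hκ : Function.Injective κ) :
    FreeE (kr fun i => sy (TrP D φ (κ i))) :=
  H33P.frpAt H67.sym trp' vap' D φ hφ.deg hφ.lead ι κ
    (H69P.pep H67.sym H91.ltl ana' cop' vap' trp' eva' D φ hφ hpos ι κ hκ)

theorem dep' : DepStmt :=
  Pool.Agent.Helper26_MT100.dep H67.sym eva' H83.sys gdn' trp' vap' frp'

/-- the Hodge theoretic and Galois theoretic part at one point -/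
theorem point (D : Dat) (P : Matrix (Fin D.r) (Fin D.r) ℂ) (x : ℝ) (hx : (D.lam : ℝ) < x)
    (hS : ¬ Excx D P x) (E : Matrix (Fin D.r) (Fin D.r) ℚ)
    (V : ℕ → Submodule ℂ (Fin D.r → ℂ)) (hV : PolHodge (D.r - 1) E V) (hF : HasPer D P x V) :
    (∀ (K : Type u) [Field K] [CharZero K], mtGroup (D.r - 1) V K = similitudes E K) ∧
      ∀ (ℓ : ℕ) [Fact ℓ.Prime] (Γ : Type v) [Group Γ] (ρ : Γ →* GL (Fin D.r) ℚ_[ℓ]),
        BigMonodromy E ρ → ∀ (K : Type u) [Field K] [CharZero K] [Algebra ℚ_[ℓ] K],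
          monodromy ρ K = mtGroup (D.r - 1) V K := by
  set w := D.r - 1 with hw
  have hr4 : 4 ≤ D.r := by
    have := D.two_le
    show 4 ≤ 2 * D.s
    omega
  have hodd : Odd w := by
    have h2 : D.r = 2 * D.s := rfl
    have := D.two_le
    exact ⟨D.s - 1, by omega⟩
  set om := perx D P x D.fz with hom
  have hVw : V w = Submodule.span ℂ {om} := by
    have h0 := hF D.fz
    have h1 : (⨆ p ∈ Set.Icc (D.r - 1 - (D.fz : ℕ)) (D.r - 1), V p) = V w := by
      have : Set.Icc (D.r - 1 - (D.fz : ℕ)) (D.r - 1) = {w} := by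
        have : ((D.fz : Fin D.r) : ℕ) = 0 := rfl
        rw [this, Nat.sub_zero]
        exact Set.Icc_self w
      rw [this]
      simp
    rw [h1] at h0
    rw [h0]
    congr 1
    ext y
    simp only [Set.mem_setOf_eq, Set.mem_singleton_iff]
    constructor
    · rintro ⟨b, hb, rfl⟩
      have : b = D.fz := by
        apply le_antisymm hb
        exact Nat.zero_le _
      rw [this]
    · rintro rfl
      exact ⟨D.fz, le_refl _, rfl⟩
  have hne : ∀ q : SI D.r → ℚ, q ≠ 0 → ∑ β : SI D.r, (q β : ℂ) * (om β.1.1 * om β.1.2) ≠ 0 := by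
    intro q hq h0
    exact hS ⟨hx, q, hq, h0⟩
  have hom0 : om ≠ 0 := by
    intro h0
    apply hne (fun _ => 1)
    · intro hc
      have := congrFun hc ⟨(D.fz, D.fz), le_refl _⟩
      simp at this
    · rw [h0]
      simp
  have hquad : ∀ q : Matrix (Fin D.r) (Fin D.r) ℚ, qᵀ = q →
      om ⬝ᵥ (q.map (algebraMap ℚ ℂ) *ᵥ om) = 0 → q = 0 := by
    intro q hq h0
    by_contra hc
    apply hne (fun β => if β.1.1 = β.1.2 then q β.1.1 β.1.2 else 2 * q β.1.1 β.1.2)
    · intro hz
      apply hc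
      have hle : ∀ i j : Fin D.r, i ≤ j → q i j = 0 := by
        intro i j hij
        have := congrFun hz ⟨(i, j), hij⟩
        simp only [Pi.zero_apply] at this
        split_ifs at this with h
        · exact this
        · linarith
      ext i j
      rcases le_total i j with h | h
      · exact hle i j h
      · have : q i j = q j i := congrFun (congrFun hq j) i
        rw [this]
        exact hle j i h
    · rw [quad_sum q hq om]
      exact h0
  have hmt : ∀ (K : Type u) [Field K] [CharZero K], mtGroup w V K = similitudes E K :=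
    fun K _ _ => Pool.Agent.Helper46_MT.hod (Fin D.r) w E V om hodd hV hVw hom0 hquad K
  refine ⟨hmt, ?_⟩
  intro ℓ _ Γ _ ρ hρ K _ _ _
  rw [hmt K]
  have hsym : Eᵀ = -E := by
    rw [hV.symm, hodd.neg_one_pow, neg_smul, one_smul]
  exact H78.lad (Fin D.r) E ℚ_[ℓ] Γ ρ hsym hV.nondeg (by rw [Fintype.card_fin]; omega) hρ K

theorem mainP : MainPStmt.{u, v} := by
  intro D φ hφ
  obtain ⟨n1, hn1⟩ := dep' D φ hφ
  refine ⟨n1, fun P hP => ⟨{n : ℕ | Excx D P (pv φ n)}, (hn1 P hP).2, (hn1 P hP).1, ?_⟩⟩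
  intro n hn hS E V hV hF
  exact point D P (pv φ n) hn hS E V hV hF

theorem nva' : NvaStmt := H18.nva hgt' ana'

end Pool.Agent.MT100.H97
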